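import Mathlib

set_option autoImplicit false

namespace Pool.Agent.Results.MP_03ede5_co.Crt

open Finset

/-- a regular train line: integer endpoints, track parallel to a coordinate axis -/
structure Line (d : ℕ) where
  dep : Fin d → ℤ
  arr : Fin d → ℤ
  ne : dep ≠ arr
  axis : ∃ i, ∀ j, j ≠ i → dep j = arr j

/-- the lattice point as a point of Euclidean space -/
noncomputable def pt {d : ℕ} (p : Fin d → ℤ) : EuclideanSpace ℝ (Fin d) :=
  WithLp.toLp 2 fun j => (p j : ℝ)

/-- the track -/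
def Line.track {d : ℕ} (L : Line d) : Set (EuclideanSpace ℝ (Fin d)) :=
  segment ℝ (pt L.dep) (pt L.arr)

/-- two different tracks share at most one point -/
def NonOverlap {d : ℕ} (N : Set (Line d)) : Prop :=
  ∀ L ∈ N, ∀ L' ∈ N, L ≠ L' → (L.track ∩ L'.track).Subsingleton

/-- collision-free delays for trains of length `l` and speed one -/
def IsSchedule {d : ℕ} (l : ℕ) (N : Set (Line d)) (t : Line d → ℝ) : Prop :=
  (∀ L ∈ N, 0 ≤ t L) ∧ ∀ L ∈ N, ∀ L' ∈ N, L ≠ L' → ∀ x ∈ L.track ∩ L'.track,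
    Disjoint (Set.Ioo (t L + dist (pt L.dep) x) (t L + dist (pt L.dep) x + l))
      (Set.Ioo (t L' + dist (pt L'.dep) x) (t L' + dist (pt L'.dep) x + l))

variable {d : ℕ}

noncomputable def ax (L : Line d) : Fin d := L.axis.choose
lemma ax_spec (L : Line d) : ∀ j, j ≠ ax L → L.dep j = L.arr j := L.axis.choose_spec
noncomputable def lo (L : Line d) : ℤ := min (L.dep (ax L)) (L.arr (ax L))
noncomputable def hi (L : Line d) : ℤ := max (L.dep (ax L)) (L.arr (ax L))
noncomputable def up (L : Line d) : Bool := decide (L.dep (ax L) < L.arr (ax L))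
def sg (b : Bool) : ℤ := if b then 1 else -1

lemma ax_ne (L : Line d) : L.dep (ax L) ≠ L.arr (ax L) := fun h => L.ne (funext fun j => by
  by_cases e : j = ax L
  · rw [e, h]
  · exact ax_spec L j e)

lemma lo_hi (L : Line d) : lo L < hi L := by
  have := ax_ne L
  unfold lo hi; omega

lemma mem_track (L : Line d) (x : EuclideanSpace ℝ (Fin d)) :
    x ∈ L.track ↔ (∀ j, j ≠ ax L → x j = L.dep j) ∧ (lo L : ℝ) ≤ x (ax L) ∧ x (ax L) ≤ hi L := by
  have h1 : (lo L : ℝ) ≤ x (ax L) ∧ x (ax L) ≤ hi L ↔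
      x (ax L) ∈ segment ℝ (L.dep (ax L) : ℝ) (L.arr (ax L) : ℝ) := by
    rw [segment_eq_uIcc]
    simp [lo, hi, Set.uIcc]
  rw [h1]
  constructor
  · rintro ⟨a, b, ha, hb, hab, rfl⟩
    refine ⟨fun j hj => ?_, a, b, ha, hb, hab, by simp [pt]⟩
    simp only [pt, PiLp.add_apply, PiLp.smul_apply, smul_eq_mul, ← ax_spec L j hj]
    rw [← add_mul, hab, one_mul]
  · rintro ⟨h, a, b, ha, hb, hab, e⟩
    refine ⟨a, b, ha, hb, hab, ?_⟩
    ext j
    simp only [pt, PiLp.add_apply, PiLp.smul_apply, smul_eq_mul]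
    by_cases hj : j = ax L
    · rw [hj]; exact e
    · rw [← ax_spec L j hj, ← add_mul, hab, one_mul, h j hj]

lemma dist_eq (L : Line d) (x : EuclideanSpace ℝ (Fin d)) (hx : x ∈ L.track) (p : ℤ)
    (hp : x (ax L) = p) : dist (pt L.dep) x = (sg (up L) * (p - L.dep (ax L)) : ℤ) := by
  obtain ⟨h1, h2, h3⟩ := (mem_track L x).1 hx
  rw [hp] at h2 h3
  have h2' : lo L ≤ p := by exact_mod_cast h2
  have h3' : p ≤ hi L := Int.cast_le.1 h3
  rw [EuclideanSpace.dist_eq, sum_eq_single (ax L) (fun j _ hj => by simp [pt, h1 j hj]) (by simp),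
    Real.sqrt_sq dist_nonneg, hp]
  simp only [pt, Real.dist_eq]
  rw [← Int.cast_sub, ← Int.cast_abs]
  congr 1
  have := ax_ne L
  unfold lo at h2'
  unfold hi at h3'
  unfold sg up
  split_ifs with h <;> simp only [decide_eq_true_eq] at h
  · rw [abs_of_nonpos] <;> omega
  · rw [abs_of_nonneg] <;> omega

open Classical in
noncomputable def cnt (R : Set ℤ) (p : ℤ) : ℤ :=
  ∑ i ∈ Ioc 0 p, (if i ∈ R then 1 else 0) - ∑ i ∈ Ioc p 0, (if i ∈ R then 1 else 0)

open Classical in
lemma cnt_succ (R : Set ℤ) (p : ℤ) : cnt R (p + 1) = cnt R p + if p + 1 ∈ R then 1 else 0 := by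
  unfold cnt
  rcases le_or_gt 0 p with h | h
  · rw [show Ioc 0 (p + 1) = insert (p + 1) (Ioc 0 p) by ext; simp; omega, sum_insert (by simp),
      Ioc_eq_empty (show ¬ p + 1 < 0 by omega), Ioc_eq_empty (show ¬ p < 0 by omega)]
    ring
  · rw [show Ioc p 0 = insert (p + 1) (Ioc (p + 1) 0) by ext; simp; omega, sum_insert (by simp),
      Ioc_eq_empty (show ¬ 0 < p + 1 by omega), Ioc_eq_empty (show ¬ 0 < p by omega)]
    ring

def Same (L L' : Line d) : Prop := ax L' = ax L ∧ ∀ j, j ≠ ax L → L'.dep j = L.dep j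

def ends (N : Set (Line d)) (L : Line d) : Set ℤ := {q | ∃ L' ∈ N, Same L L' ∧ hi L' = q}

lemma ends_eq (N : Set (Line d)) {L L' : Line d} (h : Same L L') : ends N L' = ends N L := by
  ext q
  constructor <;> rintro ⟨M, h1, ⟨h2, h3⟩, h4⟩
  · exact ⟨M, h1, ⟨h2.trans h.1, fun j hj => (h3 j (h.1 ▸ hj)).trans (h.2 j hj)⟩, h4⟩
  · exact ⟨M, h1, ⟨h2.trans h.1.symm, fun j hj =>
      (h3 j (h.1 ▸ hj)).trans (h.2 j (h.1 ▸ hj)).symm⟩, h4⟩

lemma sep {N : Set (Line d)} (hN : NonOverlap N) {L L' : Line d} (h1 : L ∈ N) (h2 : L' ∈ N)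
    (hne : L ≠ L') (h : Same L L') : hi L ≤ lo L' ∨ hi L' ≤ lo L := by
  by_contra hc
  have a := lo_hi L
  have b := lo_hi L'
  have key : ∀ r : ℤ, lo L ≤ r → lo L' ≤ r → r ≤ hi L → r ≤ hi L' →
      pt (Function.update L.dep (ax L) r) ∈ L.track ∩ L'.track := by
    intro r r1 r2 r3 r4
    refine ⟨(mem_track _ _).2 ⟨fun j hj => by simp [pt, hj], ?_⟩,
      (mem_track _ _).2 ⟨fun j hj => ?_, ?_⟩⟩
    · simp only [pt, Function.update_self]
      exact_mod_cast And.intro r1 r3
    · rw [h.1] at hj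
      simp [pt, hj, h.2 j hj]
    · simp only [h.1, pt, Function.update_self]
      exact_mod_cast And.intro r2 r4
  have := hN L h1 L' h2 hne (key (max (lo L) (lo L')) (by omega) (by omega) (by omega) (by omega))
    (key (max (lo L) (lo L') + 1) (by omega) (by omega) (by omega) (by omega))
  have := congrArg (fun x : EuclideanSpace ℝ (Fin d) => x (ax L)) this
  simp [pt] at this

lemma cnt_hi {N : Set (Line d)} (hN : NonOverlap N) {L : Line d} (h : L ∈ N) :
    cnt (ends N L) (hi L) = cnt (ends N L) (lo L) + 1 := by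
  have a := lo_hi L
  have key : ∀ n : ℕ, lo L + n < hi L → cnt (ends N L) (lo L + n) = cnt (ends N L) (lo L) := by
    intro n
    induction n with
    | zero => simp
    | succ n ih =>
      intro hn
      push_cast at hn ⊢
      rw [← add_assoc, cnt_succ, ih (by omega), if_neg, add_zero]
      rintro ⟨M, h1, h2, h3⟩
      have := lo_hi M
      have := sep hN h h1 (fun e => by rw [← e] at h3; omega) h2
      omega
  have h1 := key (hi L - lo L - 1).toNat (by omega)
  have h2 := cnt_succ (ends N L) (hi L - 1)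
  rw [sub_add_cancel, if_pos ⟨L, h, ⟨rfl, fun _ _ => rfl⟩, rfl⟩] at h2
  rw [h2, ← h1]
  congr 2
  omega

abbrev K (d : ℕ) := (Fin d × Bool × Fin d × Bool) ⊕ Bool

noncomputable def md (d l : ℕ) (k : K d) : ℕ := Nat.nth Nat.Prime (2 * l + Fintype.equivFin (K d) k)

noncomputable def par (N : Set (Line d)) (L : Line d) (p : ℤ) : Bool :=
  decide (cnt (ends N L) p % 2 = 0)

noncomputable def res (l : ℕ) (N : Set (Line d)) (L : Line d) : K d → ℤ
  | .inl (i, s, j, s') => sg s * L.dep i + sg s' * L.dep j + if ax L = i then l else 0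
  | .inr b => if b = par N L (lo L) then -(sg (up L) * (lo L - L.dep (ax L)))
      else l - sg (up L) * (hi L - L.dep (ax L))

lemma crt (d l : ℕ) (a : K d → ℤ) : ∃ t : ℕ, t < ∏ k, md d l k ∧ ∀ k, (md d l k : ℤ) ∣ t - a k := by
  have h0 : ∀ k ∈ (univ : Finset (K d)), md d l k ≠ 0 := fun k _ => (Nat.prime_nth_prime _).ne_zero
  have pp : Set.Pairwise (univ : Finset (K d)) (Function.onFun Nat.Coprime (md d l)) :=
    fun i _ j _ hij => (Nat.coprime_primes (Nat.prime_nth_prime _) (Nat.prime_nth_prime _)).2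
      fun e => hij ((Fintype.equivFin (K d)).injective (Fin.ext (by
        have := Nat.nth_injective Nat.infinite_setOfPred_prime e
        omega)))
  refine ⟨_, Nat.chineseRemainderOfFinset_lt_prod (fun k => (a k % md d l k).toNat) _ h0 pp,
    fun k => ?_⟩
  have h1 := ((Nat.chineseRemainderOfFinset (fun k => (a k % md d l k).toNat) _ univ h0 pp).2 k
    (mem_univ _)).symm.dvd
  rw [Int.toNat_of_nonneg (Int.emod_nonneg _ (by exact_mod_cast h0 k (mem_univ _)))] at h1
  have h2 := Int.dvd_sub h1 (Int.dvd_self_sub_emod (x := a k) (m := md d l k))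
  rwa [sub_sub_sub_cancel_right] at h2

lemma far (d l : ℕ) (k : K d) (x y : ℤ) (h : (md d l k : ℤ) ∣ x - y - l) :
    Disjoint (Set.Ioo (x : ℝ) (x + l)) (Set.Ioo (y : ℝ) (y + l)) := by
  have h1 : 2 * l + 2 ≤ md d l k := le_trans (by omega) (Nat.add_two_le_nth_prime _)
  have h2 : x + l ≤ y ∨ y + l ≤ x := by
    by_contra hc
    have := Int.le_of_dvd (by omega) ((dvd_neg).2 h)
    omega
  rw [Set.disjoint_left]
  rintro z ⟨a, b⟩ ⟨c, e⟩
  rcases h2 with h | h
  · have : (x : ℝ) + l ≤ y := by exact_mod_cast h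
    linarith
  · have : (y : ℝ) + l ≤ x := by exact_mod_cast h
    linarith

/-- In every dimension, regular networks have schedules of bounded delay. -/
theorem result : ∀ d l : ℕ, ∃ C : ℝ, ∀ N : Set (Line d), NonOverlap N →
    ∃ t : Line d → ℝ, IsSchedule l N t ∧ ∀ L ∈ N, t L ≤ C := by
  intro d l
  refine ⟨(∏ k, md d l k : ℕ), fun N hN => ?_⟩
  choose t t1 t2 using fun L => crt d l (res l N L)
  refine ⟨fun L => t L, ⟨fun L _ => by positivity, ?_⟩, fun L _ => Nat.cast_le.2 (t1 L).le⟩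
  have col : ∀ L ∈ N, ∀ L' ∈ N, Same L L' → hi L ≤ lo L' → ∀ x ∈ L.track ∩ L'.track,
      Disjoint (Set.Ioo (t L + dist (pt L.dep) x) (t L + dist (pt L.dep) x + l))
        (Set.Ioo (t L' + dist (pt L'.dep) x) (t L' + dist (pt L'.dep) x + l)) := by
    intro L h L' h' hs hl x hx
    have a := ((mem_track _ _).1 hx.1).2.2
    have b := ((mem_track _ _).1 hx.2).2.1
    have c : (hi L : ℝ) ≤ lo L' := by exact_mod_cast hl
    have e1 : x (ax L) = hi L := by rw [hs.1] at b; linarith
    have e2 : x (ax L') = lo L' := by rw [hs.1] at b ⊢; linarith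
    have e3 : hi L = lo L' := by rw [hs.1, e1] at e2; exact Int.cast_injective e2
    rw [dist_eq L x hx.1 _ e1, dist_eq L' x hx.2 _ e2]
    have p1 := t2 L (.inr (par N L' (lo L')))
    have p2 := t2 L' (.inr (par N L' (lo L')))
    have q : par N L' (lo L') ≠ par N L (lo L) := by
      have := cnt_hi hN h
      simp only [par, ends_eq N hs, ← e3, ne_eq, decide_eq_decide]
      omega
    simp only [res, if_neg q, if_true] at p1 p2
    have := far d l _ (t L + sg (up L) * (hi L - L.dep (ax L)))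
      (t L' + sg (up L') * (lo L' - L'.dep (ax L'))) ((dvd_sub p1 p2).trans (dvd_of_eq (by ring)))
    simpa using this
  intro L h L' h' hne x hx
  have a := ((mem_track _ _).1 hx.1).1
  have b := ((mem_track _ _).1 hx.2).1
  by_cases e : ax L' = ax L
  · have hs : Same L L' := ⟨e, fun j hj => by
      exact Int.cast_injective ((b j (e ▸ hj)).symm.trans (a j hj))⟩
    have hs' : Same L' L := ⟨e.symm, fun j hj => (hs.2 j (e ▸ hj)).symm⟩
    rcases sep hN h h' hne hs with c | c
    · exact col L h L' h' hs c x hx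
    · exact (col L' h' L h hs' c x ⟨hx.2, hx.1⟩).symm
  · rw [dist_eq L x hx.1 _ (b _ (Ne.symm e)), dist_eq L' x hx.2 _ (a _ e)]
    have p1 := t2 L (.inl (ax L, up L, ax L', up L'))
    have p2 := t2 L' (.inl (ax L, up L, ax L', up L'))
    simp only [res, if_neg e, if_true] at p1 p2
    have := far d l _ (t L + sg (up L) * (L'.dep (ax L) - L.dep (ax L)))
      (t L' + sg (up L') * (L.dep (ax L') - L'.dep (ax L'))) ((dvd_sub p1 p2).trans (dvd_of_eq (by ring)))
    simpa using this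

end Pool.Agent.Results.MP_03ede5_co.Crt
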